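import Mathlib
import Pool.Agent.TH591.Lie.Final
import Pool.Agent.Y368.Lie.Matrix
import Pool.Agent.Q217.TN.FormCover
import Pool.Agent.Q217.TN.Irr

set_option autoImplicit false

/-!
# Separation of the faces of bodies with a scalar Casimir operator
-/

namespace Pool.Agent.Q156.Lie

open scoped InnerProductSpace
open Module Pool.Agent

variable {E : Type*} [NormedAddCommGroup E] [InnerProductSpace ℝ E] [FiniteDimensional ℝ E]

omit [FiniteDimensional ℝ E] in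
/-- The polar body has the same asymmetry. -/
theorem polar_asymm (K : Set E) (o : E) (a : ℝ) (hKa : ∀ x ∈ K, o - a⁻¹ • (x - o) ∈ K) :
    ∀ v ∈ TH591.Lie.polarAt K o, -(a⁻¹ • v) ∈ TH591.Lie.polarAt K o := by
  intro v hv y hy
  have h1 := hv _ (hKa y hy)
  rw [sub_sub_cancel_left, inner_neg_right, real_inner_smul_right] at h1
  rw [inner_neg_left, real_inner_smul_left]
  exact h1

/-- The hyperplanes for a body with a scalar Casimir operator. -/
theorem sep_scalar {ι : Type*} [Fintype ι] (X : ι → E →L[ℝ] E)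
    (hX : ∀ i x y, ⟪X i x, y⟫_ℝ = -⟪x, X i y⟫_ℝ) (q : ℝ) (hq : 0 < q)
    (hcas : ∀ x, -∑ i, X i (X i x) = q • x) (κ : ℝ) (hκ : 0 < κ)
    (hn : ∀ a : ι → ℝ, ∑ i, a i ^ 2 ≤ 1 → ∀ x, ‖∑ i, a i • X i x‖ ≤ κ * ‖x‖)
    (hd : 2 ≤ finrank ℝ E) (K : Set E) (o : E) (a : ℝ)
    (hKc : IsCompact K) (ho : o ∈ interior K) (ha : 0 < a)
    (hKa : ∀ x ∈ K, o - a⁻¹ • (x - o) ∈ K)
    (hinv : ∀ b : ι → ℝ, ∀ x ∈ K, o + NormedSpace.exp (∑ i, b i • X i) (x - o) ∈ K) :
    ∃ H : Finset (E × ℝ), TH591.Lie.SeparatesFaces K o H ∧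
      (H.card : ℝ) ≤ 1 + 13 * finrank ℝ E * Real.log (2 * finrank ℝ E ^ 2 + 2 * finrank ℝ E + 1)
        * 2 ^ finrank ℝ E * Real.exp (-(q / (480 * κ ^ 2 * (1 + a) ^ 2))) := by
  let _ : MeasurableSpace E := borel E
  have _ : BorelSpace E := ⟨rfl⟩
  have hPa := polar_asymm K o a hKa
  obtain ⟨T, hT1, hT2⟩ := Y368.Lie.cover_scalar' X hX q hq hcas κ hκ hn
    (TH591.Lie.polarAt K o) hd (TH591.Lie.polarAt_convex K o)
    (TH591.Lie.polarAt_compact K o ho) (TH591.Lie.polarAt_interior K hKc o ho) a ha hPa (by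
      intro b v hv y hy
      set S := ∑ i, b i • X i with hS
      have hSk : ∀ x y, ⟪S x, y⟫_ℝ = -⟪x, S y⟫_ℝ := TH591.Lie.comb_skew' Finset.univ X hX b
      have h1 := hinv (-b) y hy
      have e1 : ∑ i, (-b) i • X i = (-1 : ℝ) • S := by
        rw [hS, Finset.smul_sum]
        refine Finset.sum_congr rfl fun i _ => ?_
        rw [Pi.neg_apply, neg_smul, neg_smul, one_smul]
      rw [e1] at h1
      have h2 := hv _ h1
      rw [add_sub_cancel_left, ← TH591.Lie.flow_inner S hSk 1, TH591.Lie.flow_neg', one_smul] at h2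
      exact h2)
  obtain ⟨H, hH, hsep⟩ := TH591.Lie.sep_of_cover K o ho T hT1
  have hH' : (H.card : ℝ) ≤ T.card := by exact_mod_cast hH
  exact ⟨H, hsep, hH'.trans hT2⟩

end Pool.Agent.Q156.Lie
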