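import Mathlib
import Pool.Agent.Q156.Lie.Sep

set_option autoImplicit false
set_option linter.unusedSectionVars false

/-!
# Separation of the faces of rotation invariant bodies of alternating forms
-/

namespace Pool.Agent.Q156.Lie

open scoped InnerProductSpace
open Module Pool.Agent Pool.Agent.Q217.TN Pool.Agent.TH591.Lie Pool.Agent.Y368.Lie

/-- Separation of the faces in a normed space. -/
def SepF {V : Type*} [NormedAddCommGroup V] [NormedSpace ℝ V] (K : Set V) (o : V)
    (H : Finset ((V →L[ℝ] ℝ) × ℝ)) : Prop :=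
  (∀ h ∈ H, h.1 ≠ 0) ∧
    ∀ (u : V →L[ℝ] ℝ) (x₀ : V), u ≠ 0 → x₀ ∈ K → (∀ y ∈ K, u y ≤ u x₀) →
      ∃ h ∈ H, h.1 o < h.2 ∧ ∀ x ∈ K, u x = u x₀ → h.2 < h.1 x

/-- Transport of the separating hyperplanes. -/
theorem transport {V E : Type*} [NormedAddCommGroup V] [NormedSpace ℝ V]
    [NormedAddCommGroup E] [InnerProductSpace ℝ E] [FiniteDimensional ℝ E]
    (W : V ≃L[ℝ] E) (K : Set V) (o : V) (H : Finset (E × ℝ))
    (h : TH591.Lie.SeparatesFaces (W '' K) (W o) H) :
    ∃ H' : Finset ((V →L[ℝ] ℝ) × ℝ), H'.card ≤ H.card ∧ SepF K o H' := by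
  classical
  have : CompleteSpace E := FiniteDimensional.complete ℝ E
  refine ⟨H.image fun h => ((innerSL ℝ h.1).comp (W : V →L[ℝ] E), h.2), Finset.card_image_le,
    ?_, ?_⟩
  · intro g hg
    obtain ⟨h', hh', rfl⟩ := Finset.mem_image.1 hg
    intro hcon
    apply h.1 h' hh'
    have h2 := congrArg (fun f : V →L[ℝ] ℝ => f (W.symm h'.1)) hcon
    have h3 : ⟪h'.1, h'.1⟫_ℝ = 0 := by
      simpa using h2
    exact inner_self_eq_zero.1 h3
  · intro u x₀ hu hx₀ hmax
    set w : E := (InnerProductSpace.toDual ℝ E).symm (u.comp (W.symm : E →L[ℝ] V)) with hw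
    have hwv : ∀ x : V, ⟪w, W x⟫_ℝ = u x := by
      intro x
      rw [hw, InnerProductSpace.toDual_symm_apply]
      simp
    have hw0 : w ≠ 0 := by
      intro hcon
      apply hu
      ext x
      rw [← hwv, hcon, inner_zero_left]
      rfl
    obtain ⟨g, hg, h1, h2⟩ := h.2 w (W x₀) hw0 (Set.mem_image_of_mem W hx₀) (by
      rintro _ ⟨y, hy, rfl⟩
      rw [hwv, hwv]
      exact hmax y hy)
    refine ⟨_, Finset.mem_image_of_mem _ hg, by simpa using h1, ?_⟩
    intro x hx hux
    have := h2 (W x) (Set.mem_image_of_mem W hx) (by rw [hwv, hwv]; exact hux)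
    simpa using this

variable {k n : ℕ}

/-- **Separation of the faces of the bodies of alternating forms.** -/
theorem sep_form (hk : 1 ≤ k) (hkn : k < n) (K : Set (Form k n)) (o : Form k n)
    (hKc : IsCompact K) (ho : o ∈ interior K)
    (hinv : ∀ U ∈ Matrix.specialOrthogonalGroup (Fin n) ℝ, ∀ f ∈ K, o + pull U (f - o) ∈ K)
    (a : ℝ) (ha : 0 < a) (hKa : ∀ f ∈ K, o - a⁻¹ • (f - o) ∈ K) :
    ∃ H : Finset ((Form k n →L[ℝ] ℝ) × ℝ), SepF K o H ∧
      (H.card : ℝ) ≤ 1 + 13 * (n.choose k : ℕ) * Real.log (2 * (n.choose k : ℕ) ^ 2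
        + 2 * (n.choose k : ℕ) + 1) * 2 ^ (n.choose k)
        * Real.exp (-(((n : ℝ) - k) / (960 * (1 + a) ^ 2))) := by
  classical
  have hk' : (1 : ℝ) ≤ k := by exact_mod_cast hk
  have hkn' : (k : ℝ) < n := by exact_mod_cast hkn
  have hq : 0 < 2 * k * ((n : ℝ) - k) := by
    have : 0 < (n : ℝ) - k := by linarith
    positivity
  have hfr : finrank ℝ (VV k n) = n.choose k := finrank_VV k n
  have hint : interior (W k n '' K) = W k n '' interior K :=
    ((W k n).toHomeomorph.image_interior K).symm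
  obtain ⟨H, h1, h2⟩ := sep_scalar (fun p => RR k (XI n p)) (fun p => RR_skew _ (XI_skew p))
    (2 * k * ((n : ℝ) - k)) hq (by
      intro v
      apply (JJ k n).injective
      rw [map_neg, map_sum, map_smul]
      simp only [RR_coe]
      exact cas_alt _ (JJ_mem v)) (2 * √k) (by positivity) (by
      intro b hb v
      have e1 : ∑ p, b p • RR k (XI n p) v = RR k (∑ p, b p • XI n p) v := by
        rw [← RR_comb]
        simp only [FunLike.coe_sum, Finset.sum_apply]
        rfl
      rw [e1, ← (JJ k n).norm_map, ← (JJ k n).norm_map v, RR_coe]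
      have h1 := DD_norm (∑ p, b p • XI n p) _ (JJ_mem v)
      have h2 := comb_hs b
      apply le_of_sq_le_sq _ (by positivity)
      rw [mul_pow, mul_pow, Real.sq_sqrt (by positivity)]
      refine h1.trans ?_
      have h3 : k * (∑ i, ∑ j, toMat (∑ p, b p • XI n p) i j ^ 2) ≤ 2 ^ 2 * (k : ℝ) := by
        rw [mul_comm]
        gcongr
        linarith
      gcongr) (by rw [finrank_VV]; exact two_le_choose hk hkn) (W k n '' K) (W k n o) a
    (hKc.image (W k n).continuous) (by rw [hint]; exact Set.mem_image_of_mem _ ho) ha (by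
      rintro _ ⟨f, hf, rfl⟩
      exact ⟨_, hKa f hf, by rw [map_sub, map_smul, map_sub]⟩) (by
      rintro b _ ⟨f, hf, rfl⟩
      rw [RR_comb, ← map_sub, ← W_rot]
      exact ⟨_, hinv _ (transpose_mem _ (toMat_exp_mem _ (XI_comb_skew b))) f hf, by
        rw [map_add]; rfl⟩)
  obtain ⟨H', hH', hs⟩ := transport (W k n) K o H h1
  refine ⟨H', hs, ?_⟩
  have h5 : (H'.card : ℝ) ≤ H.card := by exact_mod_cast hH'
  refine h5.trans (h2.trans (le_of_eq ?_))
  rw [hfr]
  congr 3
  rw [mul_pow, Real.sq_sqrt (by positivity)]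
  field_simp
  ring

end Pool.Agent.Q156.Lie
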